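import Pool.Agent.Run7.h985.TC.Stm

/-! Piece CR2 of the project of helper985 (criterion for the motivic t-structure): from Cramer's
rule to a partial inverse of `f` after tensoring with `Wᘁ ⊗ U`. -/

set_option autoImplicit false

open CategoryTheory Limits MonoidalCategory

namespace Run7.h441.TC

open Run7.h985.TC

universe v u

theorem t_CR2 : S_CR2.{v, u} := by
  intro C _ _ _ _ _ _ M N U W f g A hg hA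
  refine ⟨(Wᘁ ◁ g) ≫ ε_ W Wᘁ,
    (β_ N (Wᘁ ⊗ U)).hom ≫ (α_ Wᘁ U N).hom ≫ (Wᘁ ◁ A) ≫ (α_ Wᘁ W M).inv ≫ (ε_ W Wᘁ ▷ M) ≫
      (λ_ M).hom, ?_, ?_⟩
  · intro h0
    apply hg
    have key : (tensorLeftHomEquiv U W Wᘁ (𝟙_ C)).symm (g ≫ (ρ_ W).inv) = 0 := by
      rw [← h0]
      simp [tensorLeftHomEquiv, unitors_equal]
    have h1 : g ≫ (ρ_ W).inv = 0 := by
      apply (tensorLeftHomEquiv U W Wᘁ (𝟙_ C)).symm.injective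
      rw [key]
      simp [tensorLeftHomEquiv]
    calc g = (g ≫ (ρ_ W).inv) ≫ (ρ_ W).hom := by simp
      _ = 0 := by rw [h1, zero_comp]
  · have e1 : (f ▷ (Wᘁ ⊗ U)) ≫ (β_ N (Wᘁ ⊗ U)).hom = (β_ M (Wᘁ ⊗ U)).hom ≫ ((Wᘁ ⊗ U) ◁ f) :=
      BraidedCategory.braiding_naturality_left _ _
    have e2 : (ε_ W Wᘁ ▷ M) ≫ (λ_ M).hom ≫ f =
        ((Wᘁ ⊗ W) ◁ f) ≫ (ε_ W Wᘁ ▷ N) ≫ (λ_ N).hom := by
      rw [← leftUnitor_naturality, ← whisker_exchange_assoc]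
    have e3 : ((Wᘁ ◁ g) ≫ ε_ W Wᘁ) ▷ M = (α_ Wᘁ U M).hom ≫ (Wᘁ ◁ (g ▷ M)) ≫ (α_ Wᘁ W M).inv ≫
        (ε_ W Wᘁ ▷ M) := by
      simp
    calc (f ▷ (Wᘁ ⊗ U)) ≫ ((β_ N (Wᘁ ⊗ U)).hom ≫ (α_ Wᘁ U N).hom ≫ (Wᘁ ◁ A) ≫
          (α_ Wᘁ W M).inv ≫ (ε_ W Wᘁ ▷ M) ≫ (λ_ M).hom) ≫ f
        = (β_ M (Wᘁ ⊗ U)).hom ≫ (α_ Wᘁ U M).hom ≫ (Wᘁ ◁ ((U ◁ f) ≫ A ≫ (W ◁ f))) ≫
          (α_ Wᘁ W N).inv ≫ (ε_ W Wᘁ ▷ N) ≫ (λ_ N).hom := by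
          simp only [Category.assoc]
          rw [reassoc_of% e1, e2]
          simp
      _ = (β_ M (Wᘁ ⊗ U)).hom ≫ (α_ Wᘁ U M).hom ≫ (Wᘁ ◁ (g ▷ M)) ≫ (α_ Wᘁ W M).inv ≫
          (ε_ W Wᘁ ▷ M) ≫ (λ_ M).hom ≫ f := by
          rw [hA, e2]
          simp
      _ = (β_ M (Wᘁ ⊗ U)).hom ≫ (((Wᘁ ◁ g) ≫ ε_ W Wᘁ) ▷ M) ≫ (λ_ M).hom ≫ f := by
          rw [e3]
          simp
      _ = (M ◁ ((Wᘁ ◁ g) ≫ ε_ W Wᘁ)) ≫ (ρ_ M).hom ≫ f := by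
          rw [← BraidedCategory.braiding_naturality_right_assoc]
          simp

end Run7.h441.TC
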